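import Pool.Agent.Q161.OD.Stm
import Pool.Agent.Q247.EL.SIEVE
import Pool.Agent.Q51.EL.LSV

set_option autoImplicit false

/-!
Project OD (helper161), job SIEVE2: the large sieve for pairs.
-/

namespace Pool.Agent.Q211.OD

open Finset NumberField IsDedekindDomain
open Pool.Agent.Q161.OD Pool.Agent.Q51.EL

/-- the large sieve for boxes -/
theorem lsv_box (hL : S_LSV) (n N Q A M : ℕ) (P : Finset ℕ) (Z : Finset (Fin (n + 1) → ℕ))
    (Om : (t : ℕ) → Finset (Fin (n + 1) → ZMod t)) (η : ℕ → ℝ) (hN : 1 ≤ N) (hQ : Q ^ 2 ≤ N)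
    (hP : ∀ t ∈ P, t.Prime) (hZ0 : ∀ z ∈ Z, 1 ≤ z 0 ∧ z 0 ≤ 2 * M + 1)
    (hZ1 : ∀ z ∈ Z, ∀ i : Fin n, 1 ≤ z i.succ ∧ z i.succ ≤ 2 * A + 1) (hη : ∀ t ∈ P, 0 < η t)
    (hOm : ∀ t ∈ P, ((Om t).card : ℝ) ≤ (1 - η t) * (t : ℝ) ^ (n + 1))
    (hZO : ∀ z ∈ Z, ∀ t ∈ P, (fun i => ((z i : ℕ) : ZMod t)) ∈ Om t) :
    (Z.card : ℝ) * ∑ D ∈ P.powerset.filter (fun D => ∏ t ∈ D, t ≤ Q), ∏ t ∈ D, η t ≤
      12 ^ (n + 1) * (2 * A + N : ℝ) ^ n * (2 * M + N) := by
  classical
  obtain ⟨S, hS⟩ : ∃ S : ℝ, S = ∑ D ∈ P.powerset.filter (fun D => ∏ t ∈ D, t ≤ Q), ∏ t ∈ D, η t :=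
    ⟨_, rfl⟩
  rw [← hS]
  obtain ⟨K, hK⟩ : ∃ K : Finset (Fin (n + 1) → ℕ), K = Fintype.piFinset
      (Fin.cons (α := fun _ => Finset ℕ) (range (2 * M / N + 1)) (fun _ => range (2 * A / N + 1))) :=
    ⟨_, rfl⟩
  have hmap : ∀ z ∈ Z, (fun i => (z i - 1) / N) ∈ K := by
    intro z hz
    rw [hK, Fintype.mem_piFinset]
    intro i
    refine Fin.cases ?_ (fun j => ?_) i
    · rw [Fin.cons_zero, Finset.mem_range]
      exact Nat.lt_succ_of_le (Nat.div_le_div_right (by have := (hZ0 z hz).2; omega))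
    · rw [Fin.cons_succ, Finset.mem_range]
      exact Nat.lt_succ_of_le (Nat.div_le_div_right (by have := (hZ1 z hz j).2; omega))
  have hpos : ∀ z ∈ Z, ∀ i, 1 ≤ z i := by
    intro z hz i
    refine Fin.cases ?_ (fun j => ?_) i
    · exact (hZ0 z hz).1
    · exact (hZ1 z hz j).1
  have hcard := Finset.card_eq_sum_card_fiberwise (s := Z) (t := K)
    (f := fun (z : Fin (n + 1) → ℕ) (i : Fin (n + 1)) => (z i - 1) / N) (fun z hz => hmap z hz)
  have hcell : ∀ κ ∈ K, ((Z.filter (fun z => (fun i => (z i - 1) / N) = κ)).card : ℝ) * S ≤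
      (12 * (N : ℝ)) ^ (n + 1) := by
    intro κ _
    rw [hS]
    refine hL (n + 1) N Q (fun i => N * κ i) P _ Om η hN hQ hP ?_ hη hOm ?_
    · intro z hz i
      obtain ⟨h1, h2⟩ := Finset.mem_filter.1 hz
      rw [← h2, Finset.mem_Ioc]
      have h3 := hpos z h1 i
      have h4 := Nat.div_add_mod (z i - 1) N
      have h5 := Nat.mod_lt (z i - 1) (by omega : N > 0)
      constructor
      · show N * ((z i - 1) / N) < z i
        omega
      · show z i ≤ N * ((z i - 1) / N) + N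
        omega
    · intro z hz t ht
      exact hZO z (Finset.mem_filter.1 hz).1 t ht
  have hKc : (K.card : ℝ) = ((2 * M / N : ℕ) + 1 : ℝ) * ((2 * A / N : ℕ) + 1 : ℝ) ^ n := by
    rw [hK, Fintype.card_piFinset, Fin.prod_univ_succ]
    simp only [Fin.cons_zero, Fin.cons_succ, Finset.card_range, Finset.prod_const,
      Finset.card_univ, Fintype.card_fin]
    push_cast
    ring
  have h1 : (Z.card : ℝ) * S ≤ K.card * (12 * (N : ℝ)) ^ (n + 1) := by
    rw [hcard, Nat.cast_sum, Finset.sum_mul, ← nsmul_eq_mul]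
    exact Finset.sum_le_card_nsmul _ _ _ hcell
  refine h1.trans ?_
  rw [hKc]
  have hN0 : (0 : ℝ) ≤ N := Nat.cast_nonneg _
  have h2 : ((2 * M / N : ℕ) + 1 : ℝ) * N ≤ 2 * M + N := by
    have h3 : (2 * M / N) * N ≤ 2 * M := Nat.div_mul_le_self _ _
    have h4 : (((2 * M / N) * N : ℕ) : ℝ) ≤ ((2 * M : ℕ) : ℝ) := by exact_mod_cast h3
    push_cast at h4
    push_cast
    linarith
  have h2' : ((2 * A / N : ℕ) + 1 : ℝ) * N ≤ 2 * A + N := by
    have h3 : (2 * A / N) * N ≤ 2 * A := Nat.div_mul_le_self _ _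
    have h4 : (((2 * A / N) * N : ℕ) : ℝ) ≤ ((2 * A : ℕ) : ℝ) := by exact_mod_cast h3
    push_cast at h4
    push_cast
    linarith
  have h5 : ((2 * M / N : ℕ) + 1 : ℝ) * ((2 * A / N : ℕ) + 1 : ℝ) ^ n * (12 * (N : ℝ)) ^ (n + 1) =
      12 ^ (n + 1) * (((2 * A / N : ℕ) + 1 : ℝ) * N) ^ n * (((2 * M / N : ℕ) + 1 : ℝ) * N) := by
    rw [mul_pow, mul_pow, pow_succ (N : ℝ) n]
    ring
  rw [h5]
  have h6 : (((2 * A / N : ℕ) + 1 : ℝ) * N) ^ n ≤ (2 * A + N : ℝ) ^ n :=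
    pow_le_pow_left₀ (by positivity) h2' n
  gcongr

theorem finite_box2 (L : Type) [Field L] [NumberField L] (T : Set (𝓞 L × ℤ)) (Y M : ℝ) :
    {p ∈ T | (∀ σ : L →+* ℂ, ‖σ (p.1 : L)‖ ≤ Y) ∧ |(p.2 : ℝ)| ≤ M}.Finite := by
  have h1 := Q247.EL.finite_box L Set.univ Y
  have h2 : {m : ℤ | |(m : ℝ)| ≤ M}.Finite := by
    refine (Set.finite_Icc (-⌊M⌋) ⌊M⌋).subset ?_
    intro m hm
    have hm' : |(m : ℝ)| ≤ M := hm
    obtain ⟨h3, h4⟩ := abs_le.1 hm'
    refine ⟨?_, Int.le_floor.2 h4⟩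
    have h5 : -m ≤ ⌊M⌋ := Int.le_floor.2 (by push_cast; linarith)
    linarith
  refine (h1.prod h2).subset ?_
  rintro ⟨β, m⟩ ⟨_, h3, h4⟩
  exact ⟨⟨Set.mem_univ _, h3⟩, h4⟩

open Classical in
theorem sieve2_of (hL : S_LSV) : S_SIEVE2 := by
  intro L _ _
  obtain ⟨b, C1, hC1, hb⟩ := Q247.EL.exists_basis L
  refine ⟨12 ^ (Module.finrank ℚ L + 1) * (2 * C1 + 3) ^ Module.finrank ℚ L * 3, by positivity, ?_⟩
  intro Y M P T η hY hM hP hη
  have hfin := finite_box2 L T Y M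
  refine ⟨hfin, ?_⟩
  obtain ⟨A, hA⟩ : ∃ A, A = ⌈C1 * Y⌉₊ := ⟨_, rfl⟩
  obtain ⟨W, hW⟩ : ∃ W, W = ⌊M⌋₊ := ⟨_, rfl⟩
  obtain ⟨N, hN⟩ : ∃ N, N = ⌊min Y M⌋₊ := ⟨_, rfl⟩
  have hY0 : 0 ≤ Y := by linarith
  have hmn : 1 ≤ min Y M := le_min hY hM
  have hmn0 : 0 ≤ min Y M := by linarith
  have hA1 : C1 * Y ≤ A := by
    rw [hA]
    exact Nat.le_ceil _
  have hA2 : (A : ℝ) ≤ C1 * Y + 1 := by
    rw [hA]
    exact (Nat.ceil_lt_add_one (by positivity)).le
  have hW2 : (W : ℝ) ≤ M := by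
    rw [hW]
    exact Nat.floor_le (by linarith)
  have hN1 : 1 ≤ N := by
    rw [hN]
    exact Nat.le_floor (by exact_mod_cast hmn)
  have hN2 : (N : ℝ) ≤ min Y M := by
    rw [hN]
    exact Nat.floor_le hmn0
  -- coordinates
  have hco : ∀ p ∈ hfin.toFinset, ∀ i, |b.repr p.1 i| ≤ (A : ℤ) := by
    intro p hp i
    rw [Set.Finite.mem_toFinset] at hp
    have h1 := (hb p.1 Y hY0 hp.2.1 i).trans hA1
    have h2 : ((|b.repr p.1 i| : ℤ) : ℝ) ≤ ((A : ℤ) : ℝ) := by
      push_cast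
      exact h1
    exact_mod_cast h2
  have hco2 : ∀ p ∈ hfin.toFinset, |p.2| ≤ (W : ℤ) := by
    intro p hp
    rw [Set.Finite.mem_toFinset] at hp
    have h1 := hp.2.2
    have h3 : p.2.natAbs ≤ W := by
      rw [hW]
      refine Nat.le_floor ?_
      rw [Nat.cast_natAbs, Int.cast_abs]
      exact h1
    rw [Int.abs_eq_natAbs]
    exact_mod_cast h3
  obtain ⟨z, hz⟩ : ∃ z : 𝓞 L × ℤ → (Fin (Module.finrank ℚ L + 1) → ℕ),
    z = fun p => Fin.cons (α := fun _ => ℕ) (p.2 + (W : ℤ) + 1).toNat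
      (fun i => (b.repr p.1 i + (A : ℤ) + 1).toNat) := ⟨_, rfl⟩
  have hz0 : ∀ p ∈ hfin.toFinset, ((z p 0 : ℕ) : ℤ) = p.2 + W + 1 := by
    intro p hp
    have h1 := abs_le.1 (hco2 p hp)
    rw [hz]
    exact Int.toNat_of_nonneg (by linarith [h1.1])
  have hzc : ∀ p ∈ hfin.toFinset, ∀ i : Fin (Module.finrank ℚ L), ((z p i.succ : ℕ) : ℤ) =
      b.repr p.1 i + A + 1 := by
    intro p hp i
    have h1 := abs_le.1 (hco p hp i)
    rw [hz]
    exact Int.toNat_of_nonneg (by linarith [h1.1])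
  have hinj : Set.InjOn z hfin.toFinset := by
    intro p hp p' hp' h
    refine Prod.ext ?_ ?_
    · apply b.repr.injective
      ext i
      have h1 := hzc p hp i
      have h2 := hzc p' hp' i
      rw [h, h2] at h1
      linarith
    · have h1 := hz0 p hp
      have h2 := hz0 p' hp'
      rw [h, h2] at h1
      linarith
  have hQ : ⌊Real.sqrt (min Y M)⌋₊ ^ 2 ≤ N := by
    have h1 : ((⌊Real.sqrt (min Y M)⌋₊ : ℕ) : ℝ) ≤ Real.sqrt (min Y M) :=
      Nat.floor_le (Real.sqrt_nonneg _)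
    rw [hN]
    refine Nat.le_floor ?_
    push_cast
    calc ((⌊Real.sqrt (min Y M)⌋₊ : ℕ) : ℝ) ^ 2 ≤ Real.sqrt (min Y M) ^ 2 :=
          pow_le_pow_left₀ (Nat.cast_nonneg _) h1 2
      _ = min Y M := Real.sq_sqrt hmn0
  have hmain := lsv_box hL (Module.finrank ℚ L) N ⌊Real.sqrt (min Y M)⌋₊ A W P
    (hfin.toFinset.image z) (fun t => (hfin.toFinset.image z).image (fun z i => ((z i : ℕ) : ZMod t))) η
    hN1 hQ hP
    (by
      intro z' hz'
      rw [mem_image] at hz'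
      obtain ⟨p, hp, rfl⟩ := hz'
      have h1 := abs_le.1 (hco2 p hp)
      have h2 := hz0 p hp
      constructor
      · have : (1 : ℤ) ≤ z p 0 := by rw [h2]; linarith [h1.1]
        exact_mod_cast this
      · have : ((z p 0 : ℕ) : ℤ) ≤ ((2 * W + 1 : ℕ) : ℤ) := by
          rw [h2]
          push_cast
          linarith [h1.2]
        exact_mod_cast this)
    (by
      intro z' hz' i
      rw [mem_image] at hz'
      obtain ⟨p, hp, rfl⟩ := hz'
      have h1 := abs_le.1 (hco p hp i)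
      have h2 := hzc p hp i
      constructor
      · have : (1 : ℤ) ≤ z p i.succ := by rw [h2]; linarith [h1.1]
        exact_mod_cast this
      · have : ((z p i.succ : ℕ) : ℤ) ≤ ((2 * A + 1 : ℕ) : ℤ) := by
          rw [h2]
          push_cast
          linarith [h1.2]
        exact_mod_cast this)
    (fun t ht => (hη t ht).1)
    (by
      intro t ht
      refine le_trans ?_ (hη t ht).2
      rw [Nat.cast_le]
      have htp := hP t ht
      -- the quotient is finite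
      have hne : (Ideal.span {(t : 𝓞 L)}) ≠ ⊥ := by
        rw [Ne, Ideal.span_singleton_eq_bot]
        exact_mod_cast htp.ne_zero
      have : Finite (𝓞 L ⧸ Ideal.span {(t : 𝓞 L)}) := Ideal.finiteQuotientOfFreeOfNeBot _ hne
      have : NeZero t := ⟨htp.ne_zero⟩
      have hTf : (red L t '' T).Finite := Set.toFinite _
      rw [Set.ncard_eq_toFinset_card _ hTf]
      rw [image_image]
      -- each residue vector comes from an element of `T`
      have hch : ∀ x ∈ hfin.toFinset.image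
          ((fun (z : Fin (Module.finrank ℚ L + 1) → ℕ) i => ((z i : ℕ) : ZMod t)) ∘ z),
          ∃ p ∈ hfin.toFinset, (fun i => ((z p i : ℕ) : ZMod t)) = x := by
        intro x hx
        rw [mem_image] at hx
        obtain ⟨β, hβ, h⟩ := hx
        exact ⟨β, hβ, h⟩
      choose! g hg1 hg2 using hch
      refine card_le_card_of_injOn (fun x => red L t (g x)) ?_ ?_
      · intro x hx
        have h1 := hg1 x hx
        rw [Set.Finite.mem_toFinset] at h1
        rw [Finset.mem_coe, Set.Finite.mem_toFinset]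
        exact ⟨g x, h1.1, rfl⟩
      · intro x hx y hy hxy
        rw [← hg2 x hx, ← hg2 y hy]
        have hxy1 := congrArg Prod.fst hxy
        have hxy2 := congrArg Prod.snd hxy
        have h1 : (g x).1 - (g y).1 ∈ Ideal.span {(t : 𝓞 L)} := (Ideal.Quotient.eq).1 hxy1
        rw [Ideal.mem_span_singleton] at h1
        obtain ⟨w, hw⟩ := h1
        have hxy3 : (((g x).2 : ℤ) : ZMod t) = (((g y).2 : ℤ) : ZMod t) := hxy2
        rw [ZMod.intCast_eq_intCast_iff_dvd_sub] at hxy3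
        obtain ⟨w2, hw2⟩ := hxy3
        funext i
        refine Fin.cases ?_ (fun i => ?_) i
        · have h2 := hz0 (g x) (hg1 x hx)
          have h3 := hz0 (g y) (hg1 y hy)
          have h5 : (((z (g x) 0 : ℕ) : ℤ) : ZMod t) = (((z (g y) 0 : ℕ) : ℤ) : ZMod t) := by
            rw [ZMod.intCast_eq_intCast_iff_dvd_sub]
            refine ⟨w2, ?_⟩
            rw [h2, h3]
            linarith
          rw [Int.cast_natCast, Int.cast_natCast] at h5
          exact h5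
        · have h2 := hzc (g x) (hg1 x hx) i
          have h3 := hzc (g y) (hg1 y hy) i
          have h4 : b.repr (g x).1 i - b.repr (g y).1 i = t * b.repr w i := by
            have h5 : b.repr ((g x).1 - (g y).1) i = b.repr ((t : 𝓞 L) * w) i := by rw [hw]
            rw [map_sub, Finsupp.sub_apply] at h5
            rw [h5]
            have h6 : ((t : 𝓞 L) * w) = (t : ℤ) • w := by
              rw [zsmul_eq_mul]
              push_cast
              rfl
            rw [h6, map_smul, Finsupp.smul_apply, smul_eq_mul]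
          have h5 : (((z (g x) i.succ : ℕ) : ℤ) : ZMod t) =
              (((z (g y) i.succ : ℕ) : ℤ) : ZMod t) := by
            rw [ZMod.intCast_eq_intCast_iff_dvd_sub]
            refine ⟨-(b.repr w i), ?_⟩
            rw [h2, h3]
            linarith
          rw [Int.cast_natCast, Int.cast_natCast] at h5
          exact h5)
    (by
      intro z' hz' t _
      exact mem_image_of_mem _ hz')
  -- conclusion
  have hcard : (hfin.toFinset.image z).card =
      {p ∈ T | (∀ σ : L →+* ℂ, ‖σ (p.1 : L)‖ ≤ Y) ∧ |(p.2 : ℝ)| ≤ M}.ncard := by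
    rw [card_image_of_injOn hinj, Set.ncard_eq_toFinset_card _ hfin]
  rw [hcard] at hmain
  have hfil : P.powerset.filter (fun D => (((∏ t ∈ D, t : ℕ) : ℝ)) ^ 2 ≤ min Y M) =
      P.powerset.filter (fun D => ∏ t ∈ D, t ≤ ⌊Real.sqrt (min Y M)⌋₊) := by
    refine filter_congr fun D _ => ?_
    rw [Nat.le_floor_iff (Real.sqrt_nonneg _), Real.le_sqrt (Nat.cast_nonneg _) hmn0]
  rw [hfil]
  refine hmain.trans ?_
  have e1 : (2 * A + N : ℝ) ≤ (2 * C1 + 3) * Y := by
    have := hN2.trans (min_le_left _ _)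
    linarith
  have e2 : (2 * W + N : ℝ) ≤ 3 * M := by
    have := hN2.trans (min_le_right _ _)
    linarith
  have e3 : (2 * A + N : ℝ) ^ Module.finrank ℚ L ≤ ((2 * C1 + 3) * Y) ^ Module.finrank ℚ L :=
    pow_le_pow_left₀ (by positivity) e1 _
  calc (12 : ℝ) ^ (Module.finrank ℚ L + 1) * (2 * A + N : ℝ) ^ Module.finrank ℚ L * (2 * W + N)
      ≤ 12 ^ (Module.finrank ℚ L + 1) * ((2 * C1 + 3) * Y) ^ Module.finrank ℚ L * (3 * M) := by
        gcongr
    _ = _ := by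
        rw [mul_pow]
        ring

/-- **Job SIEVE2.** -/
theorem sieve2 : S_SIEVE2 := sieve2_of Pool.Agent.Q51.EL.lsv

end Pool.Agent.Q211.OD
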