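import Pool.Agent.Q161.OD.Stm
import Pool.Agent.Q211.OD.SIEVE2

set_option autoImplicit false

/-!
Project OD (helper161), job CT: the count for one set of pairs.
-/

namespace Pool.Agent.Q211.OD

open Finset NumberField IsDedekindDomain
open Pool.Agent.Q161.OD Pool.Agent.Q51.EL

theorem fib_snd {R : Type} [DecidableEq R] (S : Finset (R × ℤ)) (K : ℕ)
    (h : ∀ p ∈ S, 1 ≤ p.2 ∧ p.2 ≤ K) (c : ℝ)
    (hc : ∀ m : ℤ, 1 ≤ m → m ≤ K → ((S.filter (fun p => p.2 = m)).card : ℝ) ≤ c) :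
    (S.card : ℝ) ≤ K * c := by
  have h1 := Finset.card_eq_sum_card_fiberwise (s := S) (t := Finset.Icc (1 : ℤ) K)
    (f := Prod.snd) (fun p hp => by
      rw [Finset.mem_coe, Finset.mem_Icc]
      exact h p hp)
  rw [h1, Nat.cast_sum]
  have h2 := Finset.sum_le_card_nsmul (Finset.Icc (1 : ℤ) K)
    (fun m => ((S.filter (fun p => p.2 = m)).card : ℝ)) c (fun m hm => by
      rw [Finset.mem_Icc] at hm
      exact hc m hm.1 hm.2)
  refine h2.trans (le_of_eq ?_)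
  rw [Int.card_Icc, nsmul_eq_mul]
  congr 2
  omega

theorem fib_fst {R : Type} [DecidableEq R] (S : Finset (R × ℤ)) (F : Finset R)
    (h : ∀ p ∈ S, p.1 ∈ F) (c : ℝ)
    (hc : ∀ a ∈ F, ((S.filter (fun p => p.1 = a)).card : ℝ) ≤ c) :
    (S.card : ℝ) ≤ F.card * c := by
  have h1 := Finset.card_eq_sum_card_fiberwise (s := S) (t := F)
    (f := Prod.fst) (fun p hp => h p hp)
  rw [h1, Nat.cast_sum]
  have h2 := Finset.sum_le_card_nsmul F
    (fun a => ((S.filter (fun p => p.1 = a)).card : ℝ)) c hc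
  refine h2.trans (le_of_eq ?_)
  rw [nsmul_eq_mul]

open Classical in
/-- **Job CT.** -/
theorem ct (hCTA : S_CTA) (hCTB : S_CTB) (hZ1 : S_Z1) : S_CT := by
  intro L _ _ hn B C T hB hC hloc hP ε hε
  obtain ⟨T0, T1, hT⟩ := hCTB L hn B C T hB hC hloc (ε / 3) (by positivity)
  -- small `m`
  obtain ⟨K, hK⟩ : ∃ K : ℕ, K = ⌊T0⌋₊ := ⟨_, rfl⟩
  have hA : ∀ m : ℤ, ∃ X0 : ℝ, 1 ≤ m → ∀ X : ℝ, X0 ≤ X →
      {α : 𝓞 L | (α, m) ∈ T ∧
        ∀ σ : L →+* ℂ, ‖σ (α : L)‖ ≤ C * (X / m) ^ ((1 : ℝ) / Module.finrank ℚ L)}.Finite ∧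
      (({α : 𝓞 L | (α, m) ∈ T ∧
        ∀ σ : L →+* ℂ, ‖σ (α : L)‖ ≤ C * (X / m) ^ ((1 : ℝ) / Module.finrank ℚ L)}.ncard : ℕ) : ℝ) ≤
        ε / (3 * (K + 1)) * X := by
    intro m
    by_cases hm : 1 ≤ m
    · obtain ⟨X0, hX0⟩ := hCTA L hn B C T hB hC hloc m hm (ε / (3 * (K + 1))) (by positivity)
      exact ⟨X0, fun _ => hX0⟩
    · exact ⟨0, fun h => absurd h hm⟩
  choose XA hXA using hA
  -- small `α`
  have hF := Q247.EL.finite_box L Set.univ T1
  obtain ⟨F, hFe⟩ : ∃ F : Finset (𝓞 L), F = hF.toFinset := ⟨_, rfl⟩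
  have hZ : ∀ α : 𝓞 L, ∃ X0 : ℝ, ∃ P : Set ℕ, (∀ m : ℤ, (α, m) ∈ T → ∀ l ∈ P, ¬ (l : ℤ) ∣ m) ∧
      ∀ X : ℝ, X0 ≤ X → (((Icc 1 ⌊X⌋₊).filter (fun m : ℕ => ∀ l ∈ P, ¬ l ∣ m)).card : ℝ) ≤
        ε / (3 * (F.card + 1)) * X := by
    intro α
    obtain ⟨P, hP1, hP2⟩ := hP α
    obtain ⟨X0, hX0⟩ := hZ1 P hP1 (ε / (3 * (F.card + 1))) (by positivity)
    exact ⟨X0, P, hP2, hX0⟩
  choose XZ P hPT hXZ using hZ
  obtain ⟨R1, hR1⟩ : ∃ R1 : ℝ, R1 = ∑ m ∈ Finset.Icc (1 : ℤ) K, |XA m| := ⟨_, rfl⟩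
  obtain ⟨R2, hR2⟩ : ∃ R2 : ℝ, R2 = ∑ α ∈ F, |XZ α| := ⟨_, rfl⟩
  refine ⟨1 + R1 + R2, fun X hX => ?_⟩
  have hR10 : 0 ≤ R1 := by
    rw [hR1]
    exact Finset.sum_nonneg fun _ _ => abs_nonneg _
  have hR20 : 0 ≤ R2 := by
    rw [hR2]
    exact Finset.sum_nonneg fun _ _ => abs_nonneg _
  have hX1 : 1 ≤ X := by linarith
  have hXA1 : ∀ m : ℤ, 1 ≤ m → m ≤ K → XA m ≤ X := by
    intro m hm hm'
    have h1 : |XA m| ≤ R1 := by
      rw [hR1]
      exact Finset.single_le_sum (f := fun m => |XA m|) (fun _ _ => abs_nonneg _)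
        (Finset.mem_Icc.2 ⟨hm, hm'⟩)
    have h2 := le_abs_self (XA m)
    linarith
  have hXZ1 : ∀ α ∈ F, XZ α ≤ X := by
    intro α hα
    have h1 : |XZ α| ≤ R2 := by
      rw [hR2]
      exact Finset.single_le_sum (f := fun α => |XZ α|) (fun _ _ => abs_nonneg _) hα
    have h2 := le_abs_self (XZ α)
    linarith
  -- finiteness
  have hfin : {p ∈ T | 1 ≤ p.2 ∧ (p.2 : ℝ) ≤ X ∧
      ∀ σ : L →+* ℂ, ‖σ (p.1 : L)‖ ≤ C * (X / p.2) ^ ((1 : ℝ) / Module.finrank ℚ L)}.Finite := by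
    refine (finite_box2 L T (C * X ^ ((1 : ℝ) / Module.finrank ℚ L)) X).subset ?_
    rintro ⟨α, m⟩ ⟨h1, h2, h3, h4⟩
    have h2' : (1 : ℝ) ≤ (m : ℝ) := by exact_mod_cast h2
    refine ⟨h1, fun σ => (h4 σ).trans ?_, ?_⟩
    · refine mul_le_mul_of_nonneg_left ?_ hC.le
      refine Real.rpow_le_rpow (by positivity) ?_ (by positivity)
      exact div_le_self (by linarith) h2'
    · show |(m : ℝ)| ≤ X
      rw [abs_of_nonneg (by linarith)]
      exact h3
  refine ⟨hfin, ?_⟩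
  rw [Set.ncard_eq_toFinset_card _ hfin]
  obtain ⟨S, hS⟩ : ∃ S, S = hfin.toFinset := ⟨_, rfl⟩
  have hmem : ∀ p ∈ S, p ∈ T ∧ 1 ≤ p.2 ∧ (p.2 : ℝ) ≤ X ∧
      ∀ σ : L →+* ℂ, ‖σ (p.1 : L)‖ ≤ C * (X / p.2) ^ ((1 : ℝ) / Module.finrank ℚ L) := by
    intro p hp
    rw [hS, Set.Finite.mem_toFinset] at hp
    exact hp
  rw [← hS]
  -- the three parts
  obtain ⟨S1, hS1⟩ : ∃ S1, S1 = S.filter (fun p => p.2 ≤ (K : ℤ)) := ⟨_, rfl⟩
  obtain ⟨S2, hS2⟩ : ∃ S2, S2 = S.filter (fun p => T0 < p.2 ∧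
      T1 ≤ C * (X / p.2) ^ ((1 : ℝ) / Module.finrank ℚ L)) := ⟨_, rfl⟩
  obtain ⟨S3, hS3⟩ : ∃ S3, S3 = S.filter (fun p =>
      C * (X / p.2) ^ ((1 : ℝ) / Module.finrank ℚ L) < T1) := ⟨_, rfl⟩
  have hsub : S ⊆ S1 ∪ (S2 ∪ S3) := by
    intro p hp
    rw [Finset.mem_union, Finset.mem_union, hS1, hS2, hS3, Finset.mem_filter, Finset.mem_filter,
      Finset.mem_filter]
    obtain ⟨_, h1, _, _⟩ := hmem p hp
    by_cases h2 : p.2 ≤ (K : ℤ)
    · exact Or.inl ⟨hp, h2⟩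
    · right
      have h3 : T0 < p.2 := by
        by_contra h4
        push Not at h4
        refine h2 ?_
        have h5 : p.2.toNat ≤ K := by
          rw [hK]
          refine Nat.le_floor ?_
          have h6 : ((p.2.toNat : ℕ) : ℤ) = p.2 := Int.toNat_of_nonneg (by linarith)
          have h7 : ((p.2.toNat : ℕ) : ℝ) = (p.2 : ℝ) := by exact_mod_cast congrArg (Int.cast (R := ℝ)) h6
          rw [h7]
          exact h4
        omega
      by_cases h4 : C * (X / p.2) ^ ((1 : ℝ) / Module.finrank ℚ L) < T1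
      · exact Or.inr ⟨hp, h4⟩
      · exact Or.inl ⟨hp, h3, not_lt.1 h4⟩
  have hc1 : (S1.card : ℝ) ≤ ε / 3 * X := by
    have h1 : (S1.card : ℝ) ≤ K * (ε / (3 * (K + 1)) * X) := by
      refine fib_snd S1 K (fun p hp => ?_) _ (fun m hm hm' => ?_)
      · rw [hS1, Finset.mem_filter] at hp
        exact ⟨(hmem p hp.1).2.1, hp.2⟩
      · obtain ⟨h2, h3⟩ := hXA m hm X (hXA1 m hm hm')
        refine le_trans ?_ h3
        rw [Set.ncard_eq_toFinset_card _ h2, Nat.cast_le]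
        refine Finset.card_le_card_of_injOn (fun p => p.1) ?_ ?_
        · intro p hp
          rw [Finset.mem_coe, Finset.mem_filter, hS1, Finset.mem_filter] at hp
          obtain ⟨⟨h4, _⟩, h5⟩ := hp
          obtain ⟨h6, _, _, h7⟩ := hmem p h4
          rw [Finset.mem_coe, Set.Finite.mem_toFinset]
          rw [← h5]
          exact ⟨h6, h7⟩
        · intro p hp q hq hpq
          rw [Finset.mem_coe, Finset.mem_filter] at hp hq
          exact Prod.ext hpq (hp.2.trans hq.2.symm)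
    refine h1.trans ?_
    have h2 : (K : ℝ) * (ε / (3 * (K + 1)) * X) = ε / 3 * X * (K / (K + 1)) := by
      field_simp
    rw [h2]
    have h3 : (K : ℝ) / (K + 1) ≤ 1 := by
      rw [div_le_one (by positivity)]
      linarith
    exact mul_le_of_le_one_right (by positivity) h3
  have hc2 : (S2.card : ℝ) ≤ ε / 3 * X := by
    obtain ⟨h1, h2⟩ := hT X hX1
    refine le_trans ?_ h2
    rw [Set.ncard_eq_toFinset_card _ h1, Nat.cast_le]
    refine Finset.card_le_card fun p hp => ?_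
    rw [hS2, Finset.mem_filter] at hp
    rw [Set.Finite.mem_toFinset]
    obtain ⟨h3, h4, h5, h6⟩ := hmem p hp.1
    exact ⟨h3, hp.2.1, h4, h5, hp.2.2, h6⟩
  have hc3 : (S3.card : ℝ) ≤ ε / 3 * X := by
    have h1 : (S3.card : ℝ) ≤ F.card * (ε / (3 * (F.card + 1)) * X) := by
      refine fib_fst S3 F (fun p hp => ?_) _ (fun α hα => ?_)
      · rw [hS3, Finset.mem_filter] at hp
        rw [hFe, Set.Finite.mem_toFinset]
        exact ⟨Set.mem_univ _, fun σ => ((hmem p hp.1).2.2.2 σ).trans hp.2.le⟩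
      · refine le_trans ?_ (hXZ α X (hXZ1 α hα))
        rw [Nat.cast_le]
        refine Finset.card_le_card_of_injOn (fun p => p.2.toNat) ?_ ?_
        · intro p hp
          rw [Finset.mem_coe, Finset.mem_filter, hS3, Finset.mem_filter] at hp
          obtain ⟨⟨h4, _⟩, h5⟩ := hp
          obtain ⟨h6, h7, h8, _⟩ := hmem p h4
          have h9 : ((p.2.toNat : ℕ) : ℤ) = p.2 := Int.toNat_of_nonneg (by linarith)
          rw [Finset.mem_coe, Finset.mem_filter, Finset.mem_Icc]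
          have h11 : 1 ≤ p.2.toNat := by omega
          refine ⟨⟨h11, ?_⟩, fun l hl hd => ?_⟩
          · refine Nat.le_floor ?_
            have h10 : ((p.2.toNat : ℕ) : ℝ) = (p.2 : ℝ) := by
              exact_mod_cast congrArg (Int.cast (R := ℝ)) h9
            rw [h10]
            exact h8
          · refine hPT α p.2 ?_ l hl ?_
            · rw [← h5]
              exact h6
            · rw [← h9]
              exact_mod_cast hd
        · intro p hp q hq hpq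
          rw [Finset.mem_coe, Finset.mem_filter, hS3, Finset.mem_filter] at hp hq
          have h4 := (hmem p hp.1.1).2.1
          have h5 := (hmem q hq.1.1).2.1
          have hpq' : p.2.toNat = q.2.toNat := hpq
          exact Prod.ext (hp.2.trans hq.2.symm) (by omega)
    refine h1.trans ?_
    have h2 : (F.card : ℝ) * (ε / (3 * (F.card + 1)) * X) = ε / 3 * X * (F.card / (F.card + 1)) := by
      field_simp
    rw [h2]
    have h3 : (F.card : ℝ) / (F.card + 1) ≤ 1 := by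
      rw [div_le_one (by positivity)]
      linarith
    exact mul_le_of_le_one_right (by positivity) h3
  have h1 := (Finset.card_le_card hsub).trans ((Finset.card_union_le _ _).trans
    (Nat.add_le_add_left (Finset.card_union_le _ _) _))
  have h2 : (S.card : ℝ) ≤ S1.card + (S2.card + S3.card) := by exact_mod_cast h1
  linarith

end Pool.Agent.Q211.OD
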